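import Mathlib
import Pool.Agent.Q1.MonoidTensor

/-!
# MP_09fe95: induced group modules are summands of tensor powers

Let `M` be a finite monoid with group of units `G`, let `k` be a field and let `V` be a nonzero
finite-dimensional `kM`-module on which only `1` acts as the identity.  We show that for every
`n ≥ |G| + 2 dim V - 1` there is a nonzero `kG`-module `W` such that `Ind W` (`G` acts as on `W`,
non-units act as zero) is a direct summand of `V^{⊗ n}`.
-/

namespace Pool.Agent.Results.MP_09fe95_al.InducedSummand

open scoped TensorProduct
open Module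

universe u v w

section Definitions

variable {k : Type u} [Field k] {M : Type w} [Monoid M]

/-- The diagonal action of `M` on the `n`-fold tensor power of `V`. -/
noncomputable def tensorPowerRep {V : Type v} [AddCommGroup V] [Module k V]
    (ρ : Representation k M V) (n : ℕ) : Representation k M (⨂[k]^n V) where
  toFun m := PiTensorProduct.map (fun _ => ρ m)
  map_one' := by simp only [map_one]; exact PiTensorProduct.map_one
  map_mul' a b := by simp only [map_mul]; exact PiTensorProduct.map_mul _ _

open Classical in
/-- `Ind W` for a module `W` over the group of units of the finite monoid `M`: a unit acts as it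
does on `W`, a non-unit acts as zero. -/
noncomputable def indRep [Finite M] {W : Type v} [AddCommGroup W] [Module k W]
    (σ : Representation k Mˣ W) : Representation k M W where
  toFun m := if h : IsUnit m then σ h.unit else 0
  map_one' := by
    rw [dif_pos isUnit_one, show (isUnit_one : IsUnit (1 : M)).unit = 1 from Units.ext rfl,
      map_one]
  map_mul' a b := by
    by_cases ha : IsUnit a
    · by_cases hb : IsUnit b
      · rw [dif_pos (ha.mul hb), dif_pos ha, dif_pos hb, ← map_mul]
        congr 1
        exact Units.ext rfl
      · rw [dif_neg hb, mul_zero, dif_neg]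
        exact fun h => hb (isUnit_of_mul_isUnit_right h)
    · rw [dif_neg ha, zero_mul, dif_neg]
      exact fun h => ha (isUnit_of_mul_isUnit_left h)

/-- The representation `σ` is isomorphic to a direct summand of the representation `τ`: there are
`M`-equivariant linear maps `i : W → X` and `r : X → W` with `r ∘ i = id`. -/
def IsDirectSummand {W X : Type*} [AddCommGroup W] [Module k W] [AddCommGroup X] [Module k X]
    (σ : Representation k M W) (τ : Representation k M X) : Prop :=
  ∃ (i : W →ₗ[k] X) (r : X →ₗ[k] W), (∀ m w, i (σ m w) = τ m (i w)) ∧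
    (∀ m x, r (τ m x) = σ m (r x)) ∧ r ∘ₗ i = LinearMap.id

end Definitions

/-- **Positive answer to Q1.** Let `M` be a finite monoid with group of units `Mˣ`, let `k` be a
field and let `V` be a nonzero finite-dimensional `kM`-module on which only `1` acts as the
identity.  For every `n ≥ |Mˣ| + 2 dim V - 1` there is a nonzero finite-dimensional module `W` over
the group of units such that `Ind W` is a direct summand of `V^{⊗ n}`. -/
theorem result {M : Type w} [Monoid M] [Finite M] {k : Type u} [Field k] {V : Type v}
    [AddCommGroup V] [Module k V] [FiniteDimensional k V] [Nontrivial V]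
    (ρ : Representation k M V) (hρ : ∀ m : M, ρ m = LinearMap.id → m = 1)
    (n : ℕ) (hn : Nat.card Mˣ + 2 * finrank k V ≤ n + 1) :
    ∃ (W : Type (max u v)) (_ : AddCommGroup W) (_ : Module k W) (σ : Representation k Mˣ W),
      FiniteDimensional k W ∧ Nontrivial W ∧
        IsDirectSummand (indRep σ) (tensorPowerRep ρ n) := by
  obtain ⟨W, C, hWC, hnt, hW, hC, hkill⟩ :=
    Q1.MonoidTensor.main ρ hρ n hn (tensorPowerRep ρ n) (fun _ => rfl)
  let τ := tensorPowerRep ρ n
  let σ : Representation k Mˣ W :=
    { toFun := fun g => (τ (g : M)).restrict (hW g)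
      map_one' := by ext w; simp
      map_mul' := by intro a b; ext w; simp [map_mul] }
  have hu : ∀ g : Mˣ, indRep σ (g : M) = σ g := by
    intro g
    simp only [indRep, MonoidHom.coe_mk, OneHom.coe_mk]
    rw [dif_pos g.isUnit]
    congr 1
    exact Units.ext rfl
  have hnu : ∀ m : M, ¬ IsUnit m → indRep σ m = 0 := by
    intro m hm
    simp only [indRep, MonoidHom.coe_mk, OneHom.coe_mk]
    rw [dif_neg hm]
  have hall : ∀ (m : M) (w : W), ((indRep σ m w : W) : ⨂[k]^n V) = τ m w := by
    intro m w
    by_cases hm : IsUnit m
    · obtain ⟨u, rfl⟩ := hm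
      rw [hu]
      rfl
    · rw [hnu m hm]
      exact (hkill m hm w w.2).symm
  refine ⟨W, inferInstance, inferInstance, σ, inferInstance, hnt,
    W.subtype, W.projectionOnto C hWC, hall, ?_, Submodule.projectionOnto_comp_subtype hWC⟩
  intro m y
  obtain ⟨⟨⟨a, ha⟩, ⟨b, hb⟩⟩, hab, -⟩ := Submodule.existsUnique_add_of_isCompl_prod hWC y
  simp only at hab
  subst hab
  have ea : W.projectionOnto C hWC a = ⟨a, ha⟩ :=
    Submodule.projectionOnto_apply_of_mem_left hWC ha
  have eb : W.projectionOnto C hWC b = 0 :=
    (Submodule.projectionOnto_apply_eq_zero_iff hWC).2 hb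
  have eta : W.projectionOnto C hWC (τ m a) = ⟨τ m a, hW m a ha⟩ :=
    Submodule.projectionOnto_apply_of_mem_left hWC (hW m a ha)
  have etb : W.projectionOnto C hWC (τ m b) = 0 :=
    (Submodule.projectionOnto_apply_eq_zero_iff hWC).2 (hC m b hb)
  apply Subtype.ext
  rw [hall, map_add, map_add, map_add, ea, eb]
  change ((W.projectionOnto C hWC (τ m a) + W.projectionOnto C hWC (τ m b) : W) : ⨂[k]^n V) = _
  rw [eta, etb, add_zero, add_zero]

end Pool.Agent.Results.MP_09fe95_al.InducedSummand
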